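import Pool.Agent.Run7.h476.Main

/-!
# Independent systems over (abelian)-by-(abelian `p`-group)-by-(soluble `q`-group) groups

Let `N` be a normal subgroup of a group `G` and `A` an abelian subgroup such that `N/(A ∩ N)` is an
abelian `p`-group.  If `G = N`, then every independent system of equations over `G` has a solution
in a metabelian overgroup of `G`.  If `G/N` is a soluble `q`-group, then every system over `G` which
is independent modulo `q` has a solution in a soluble overgroup of `G`.
-/

set_option autoImplicit false

open Monoid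

namespace Pool.Agent.Results.MP_69c751_al.AbelianByPrimePowerByPrimePower

universe u

/-- the sum of the exponents of the unknown `x_j` in an element of `G * F(x_0, ..., x_(n-1))` -/
def expSum {G : Type u} [Group G] {n : ℕ} (j : Fin n) (w : Coprod G (FreeGroup (Fin n))) : ℤ :=
  Multiplicative.toAdd (Coprod.lift (1 : G →* Multiplicative ℤ)
    (FreeGroup.lift fun k : Fin n => if k = j then Multiplicative.ofAdd (1 : ℤ) else 1) w)

/-- the exponent matrix `(e_ij)` of a system `w_0 = 1, ..., w_(m-1) = 1` -/
def expMatrix {G : Type u} [Group G] {m n : ℕ} (w : Fin m → Coprod G (FreeGroup (Fin n))) :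
    Matrix (Fin m) (Fin n) ℤ :=
  Matrix.of fun i j => expSum j (w i)

/-- Let `G` be a group, `N` a normal subgroup containing the `d`-th term of the derived series, and
`A` an abelian subgroup of `G` such that, for a prime `p`, the commutators of elements of `N` and
suitable `p`-power powers of the elements of `N` lie in `A`.  Let `w_0 = 1, ..., w_(m-1) = 1` be an
independent system of equations over `G` in `n` unknowns (the exponent matrix has rank `m` over the
rationals).  Assume that `N = G`, or that for a prime `q` the quotient `G/N` is a `q`-group and the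
exponent matrix has rank `m` modulo `q`.  Then the system has a solution in an overgroup of `G` which
is soluble of derived length at most `d + 2`.  (If `N = G` we may take `d = 0`.) -/
theorem result (G : Type u) [Group G] (A N : Subgroup G) (hN : N.Normal)
    (hA : ∀ a ∈ A, ∀ b ∈ A, a * b = b * a)
    (hcomm : ∀ x ∈ N, ∀ y ∈ N, x * y * x⁻¹ * y⁻¹ ∈ A)
    (p : ℕ) (hp : p.Prime) (hpow : ∀ x ∈ N, ∃ k : ℕ, x ^ p ^ k ∈ A)
    (d : ℕ) (hd : derivedSeries G d ≤ N)
    (m n : ℕ) (w : Fin m → Coprod G (FreeGroup (Fin n)))
    (hrank : ((expMatrix w).map (Int.cast : ℤ → ℚ)).rank = m)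
    (hq : N = ⊤ ∨ ∃ q : ℕ, q.Prime ∧ (∀ g : G, ∃ k : ℕ, g ^ q ^ k ∈ N) ∧
      ((expMatrix w).map (Int.cast : ℤ → ZMod q)).rank = m) :
    ∃ (H : Type u) (_ : Group H), derivedSeries H (d + 2) = ⊥ ∧
      ∃ φ : G →* H, Function.Injective φ ∧
        ∃ h : Fin n → H, ∀ i, Coprod.lift φ (FreeGroup.lift h) (w i) = 1 := by
  have := hN
  exact Run7.h476.main_rank A N hA hcomm p hp hpow d hd w hrank hq

end Pool.Agent.Results.MP_69c751_al.AbelianByPrimePowerByPrimePower
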