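import Pool.Agent.Run7.h476.Nilp

/-!
# Independent systems over metabelian groups which are locally residually nilpotent

Every independent system of equations over a metabelian locally nilpotent (more generally, locally
residually nilpotent) group has a solution in a metabelian overgroup.  More generally the group may
be an extension of such a group by a soluble `q`-group, if the system is independent modulo `q`.
-/

set_option autoImplicit false

open Monoid

namespace Pool.Agent.Results.MP_69c751_al.MetabelianResiduallyNilpotent

universe u

/-- the sum of the exponents of the unknown `x_j` in an element of `G * F(x_0, ..., x_(n-1))` -/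
def expSum {G : Type u} [Group G] {n : ℕ} (j : Fin n) (w : Coprod G (FreeGroup (Fin n))) : ℤ :=
  Multiplicative.toAdd (Coprod.lift (1 : G →* Multiplicative ℤ)
    (FreeGroup.lift fun k : Fin n => if k = j then Multiplicative.ofAdd (1 : ℤ) else 1) w)

/-- the exponent matrix `(e_ij)` of a system `w_0 = 1, ..., w_(m-1) = 1` -/
def expMatrix {G : Type u} [Group G] {m n : ℕ} (w : Fin m → Coprod G (FreeGroup (Fin n))) :
    Matrix (Fin m) (Fin n) ℤ :=
  Matrix.of fun i j => expSum j (w i)

/-- Let `N` be a normal subgroup of a group `G` containing the `d`-th term of the derived series.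
Assume that `N` is metabelian and locally residually nilpotent: in every finitely generated subgroup
`K` of `N` the terms of the lower central series have trivial intersection (this holds for instance
if `N` is locally nilpotent).  Let `w_0 = 1, ..., w_(m-1) = 1` be an independent system of equations
over `G` in `n` unknowns (the exponent matrix has rank `m` over the rationals).  Assume that
`N = G`, or that for a prime `q` the quotient `G/N` is a `q`-group and the exponent matrix has rank
`m` modulo `q`.  Then the system has a solution in an overgroup of `G` which is soluble of derived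
length at most `d + 2`.  (If `N = G` we may take `d = 0`.) -/
theorem result (G : Type u) [Group G] (N : Subgroup G) (hN : N.Normal)
    (hmet : ∀ a ∈ ⁅N, N⁆, ∀ b ∈ ⁅N, N⁆, a * b = b * a)
    (hres : ∀ K : Subgroup G, K ≤ N → K.FG → ⨅ i, K.lowerCentralSeries i = ⊥)
    (d : ℕ) (hd : derivedSeries G d ≤ N)
    (m n : ℕ) (w : Fin m → Coprod G (FreeGroup (Fin n)))
    (hrank : ((expMatrix w).map (Int.cast : ℤ → ℚ)).rank = m)
    (hq : N = ⊤ ∨ ∃ q : ℕ, q.Prime ∧ (∀ g : G, ∃ k : ℕ, g ^ q ^ k ∈ N) ∧
      ((expMatrix w).map (Int.cast : ℤ → ZMod q)).rank = m) :
    ∃ (H : Type u) (_ : Group H), derivedSeries H (d + 2) = ⊥ ∧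
      ∃ φ : G →* H, Function.Injective φ ∧
        ∃ h : Fin n → H, ∀ i, Coprod.lift φ (FreeGroup.lift h) (w i) = 1 := by
  have := hN
  refine Run7.h476.main_nilp_rank N hmet ?_ d hd w hrank hq
  intro K hK hfg g hg
  have h1 := hres K hK hfg
  have h2 : g ∈ ⨅ i, K.lowerCentralSeries i := Subgroup.mem_iInf.2 hg
  rw [h1] at h2
  exact Subgroup.mem_bot.1 h2

end Pool.Agent.Results.MP_69c751_al.MetabelianResiduallyNilpotent
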